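import Pool.Agent.R904.DG.MotMain
import Pool.Agent.R904.AB.Main

/-!
# Deligne's conjecture: real abelian base fields of large degree suffice

For coprime `m, n ≥ 1` (for example `m = 2^100`, `n = 3^100`) and `N ≥ 1` there are finite lists `A`,
`B` of totally real subfields of the fields of the `k`-th roots of unity, `k` prime to `N`, all of
degree divisible by `m` or by `n`, such that for all motives `M` over `ℚ` Deligne's conjecture for the
motives `M ⊗ h⁰(F)`, `F` in `A` or `B`, implies Deligne's conjecture for `M`, provided that the
`L`-values of the `M ⊗ h⁰(F)`, `F` in `B`, are not zero.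
-/

set_option autoImplicit false

open Pool.Agent.R904.DG Pool.Agent.R904.AB

namespace Pool.Agent.Results.MP_100fe7_nt.LargeBaseFields

/-- Let `m, n ≥ 1` be coprime and `N ≥ 1`. There are finite lists `A`, `B` of number fields, each of
them totally real and a subfield of the field of the `k`-th roots of unity for some `k` prime to `N`,
the degree of each of them divisible by `m` and dividing `m²`, or divisible by `n` and dividing `n²`,
such that for every number field `E` and every motive `M` over `ℚ` with coefficients in `E`: if
Deligne's conjecture holds for all `M ⊗ h⁰(F)`, `F` in `A` or in `B`, and for each `F` in `B` the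
`L`-value of `M ⊗ h⁰(F)` does not vanish at one embedding of `E`, then Deligne's conjecture holds for
`M`. -/
theorem result (m n N : ℕ) (hm : 0 < m) (hn : 0 < n) (hmn : Nat.Coprime m n) (hN : 0 < N) :
    ∃ A B : List (Ext ℚ), (∀ F ∈ A ++ B, RealAbelian N F ∧ DegreeCond m n F) ∧
      ∀ (E : Type) [Field E] [NumberField E] (T : Motives E) (M : T.Mot),
        (∀ F ∈ A ++ B, T.Deligne (T.ext M F)) →
        (∀ F ∈ B, ∃ σ, T.L (T.ext M F) σ ≠ 0) → T.Deligne M := by
  obtain ⟨A, B, hAB, h⟩ := real_lists hm hn hmn hN
  refine ⟨A, B, hAB, fun E _ _ T M hD h0 => ?_⟩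
  exact T.descent M A B h (fun F hF => hD F (List.mem_append_left _ hF))
    (fun F hF => hD F (List.mem_append_right _ hF)) h0

end Pool.Agent.Results.MP_100fe7_nt.LargeBaseFields
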