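import Mathlib
import Pool.Agent.R389.NewMain

/-!
# Deligne's conjecture for the twists which are new over a subfield carrying all the zeros
-/

set_option autoImplicit false

namespace Pool.Agent.Results.MP_100fe7_nt.NewTwists

open Pool.Agent.R389 Pool.Agent.H541R3.ART Filter Topology

/-- Suppose Deligne's conjecture holds at `c` for the characters induced from linear characters of
hyperelementary subgroups of `G`. Let `K` be a normal subgroup such that all elements of `G / K`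
have prime power order, let `lam` be a linear character of `G`, and suppose that for one embedding
`τ₀` all zeros at `c` of the L-function of the regular character are carried by the characters
which are a multiple of `lam` on `K`. Then for every representation `ρ` of `G` over `E` whose
restriction to `K` does not contain `lam` the L-function does not vanish at `c` and its value is a
nonzero element of `E` times the period. -/
theorem result {G : Type} [Group G] [Finite G] {E : Type} [Field E]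
    {ζ : E} (hζ : IsPrimitiveRoot ζ (Monoid.exponent G)) {c : ℂ}
    {L : (E →+* ℂ) → (G → ℂ) → ℂ → ℂ} {P : (E →+* ℂ) → (G → ℂ) → ℂ}
    (hL : ∀ τ, ∀ χ ∈ Irr G, MeromorphicAt (L τ χ) c ∧ meromorphicOrderAt (L τ χ) c ≠ ⊤)
    (hP : ∀ τ, ∀ χ ∈ Irr G, P τ χ ≠ 0)
    (hmon : ∀ (U : Subgroup G) (ψ : U →* Eˣ), Hyper U →
      Deligne L P c (ind U (fun u => ((ψ u : Eˣ) : E))))
    (τ₀ : E →+* ℂ) {deg : (G → ℂ) → ℕ} (hdeg : ∀ χ ∈ Irr G, χ 1 = deg χ)
    (K : Subgroup G) [K.Normal] (hK : ∀ x : G ⧸ K, x = 1 ∨ IsPrimePow (orderOf x))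
    (lam : G →* ℂˣ)
    (hz : meromorphicOrderAt (fun s => ∏ᶠ χ ∈ Irr G, L τ₀ χ s ^ deg χ) c ≤
      meromorphicOrderAt (fun s => ∏ᶠ χ ∈ {χ ∈ Irr G | ∀ k ∈ K, χ k = χ 1 * ((lam k : ℂˣ) : ℂ)},
        L τ₀ χ s ^ deg χ) c)
    {V : Type} [AddCommGroup V] [Module E V] [FiniteDimensional E V] (ρ : Representation E G V)
    (hρ : ∑ᶠ k : K, τ₀ (ρ.character k) * (((lam k)⁻¹ : ℂˣ) : ℂ) = 0) :
    ∃ e : E, e ≠ 0 ∧ ∀ (τ : E →+* ℂ) (m : (G → ℂ) → ℕ),
      IsDecomp (fun g => τ (ρ.character g)) m →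
      Tendsto (fun s => ∏ᶠ χ ∈ Irr G, L τ χ s ^ m χ) (𝓝[≠] c)
        (𝓝 (τ e * ∏ᶠ χ ∈ Irr G, P τ χ ^ m χ)) :=
  main_new hζ hL hP hmon τ₀ hdeg K hK lam hz ρ hρ

end Pool.Agent.Results.MP_100fe7_nt.NewTwists
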