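import Mathlib
import Pool.Agent.R389.Grow

/-!
# If there are no new zeros, Deligne's conjecture passes from `F` to `L`
-/

set_option autoImplicit false

namespace Pool.Agent.Results.MP_100fe7_nt.NoNewZeros

open Pool.Agent.R389 Pool.Agent.H541R3.ART

/-- Suppose Deligne's conjecture holds at `c` for the characters induced from linear characters of
hyperelementary and of nilpotent subgroups of `G`. Let `K` be a normal subgroup, `lam` a linear
character of `G` over `E`, and suppose that for one embedding `τ₀` the order of vanishing at `c` of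
the L-function of the regular character is at most the order of its part over the characters which
are a multiple of `lam` on `K`. If the conjecture holds at `c` for the representations on which `K`
acts through `lam`, then it holds at `c` for every representation of `G` over `E`. -/
theorem result {G : Type} [Group G] [Finite G] {E : Type} [Field E]
    {ζ : E} (hζ : IsPrimitiveRoot ζ (Monoid.exponent G)) {c : ℂ}
    {L : (E →+* ℂ) → (G → ℂ) → ℂ → ℂ} {P : (E →+* ℂ) → (G → ℂ) → ℂ}
    (hL : ∀ τ, ∀ χ ∈ Irr G, MeromorphicAt (L τ χ) c ∧ meromorphicOrderAt (L τ χ) c ≠ ⊤)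
    (hP : ∀ τ, ∀ χ ∈ Irr G, P τ χ ≠ 0)
    (hmon : ∀ (U : Subgroup G) (ψ : U →* Eˣ), Hyper U ∨ Group.IsNilpotent U →
      Deligne L P c (ind U (fun u => ((ψ u : Eˣ) : E))))
    (τ₀ : E →+* ℂ) {deg : (G → ℂ) → ℕ} (hdeg : ∀ χ ∈ Irr G, χ 1 = deg χ)
    (K : Subgroup G) [K.Normal] (lam : G →* Eˣ)
    (hz : meromorphicOrderAt (fun s => ∏ᶠ χ ∈ Irr G, L τ₀ χ s ^ deg χ) c ≤
      meromorphicOrderAt (fun s => ∏ᶠ χ ∈ {χ ∈ Irr G | ∀ k ∈ K, χ k = χ 1 * τ₀ ((lam k : Eˣ) : E)},
        L τ₀ χ s ^ deg χ) c)
    (hold : ∀ (W : Type) [AddCommGroup W] [Module E W] [FiniteDimensional E W]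
      (σ : Representation E G W), (∀ k ∈ K, ∀ w, σ k w = ((lam k : Eˣ) : E) • w) →
      Deligne L P c σ.character)
    {V : Type} [AddCommGroup V] [Module E V] [FiniteDimensional E V] (ρ : Representation E G V) :
    Deligne L P c ρ.character :=
  main_grow hζ hL hP hmon τ₀ hdeg K lam hold hz ρ

end Pool.Agent.Results.MP_100fe7_nt.NoNewZeros
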